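import Pool.Agent.H97.PR.Targets

/-! TRE: tree-like refutations. -/

set_option autoImplicit false

namespace Pool.Agent.H98.PRY

open Finset Pool.Agent.H97.PR

theorem pf_TRE (hLEF : T_LEF) (hSTP : T_STP) : T_TRE := by
  intro n N k m blk γ B D q σ g F G hE A s hT
  induction hT with
  | ax A hL =>
    intro a V Cl hS hA
    have h1 := hLEF n N k m blk γ B D q σ g F G hE a V Cl A hS hA hL
    rw [one_mul]
    exact Nat.pow_le_pow_right (by norm_num) h1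
  | weak A A' s hAf hT' hAA ih =>
    intro a V Cl hS hA
    have h1 := ih a V Cl hS (hA.trans hAA)
    calc 2 ^ (dm V + γ * Cl.card) ≤ s * 2 ^ (γ * N + B * q) := h1
      _ ≤ (s + 1) * 2 ^ (γ * N + B * q) := Nat.mul_le_mul_right _ (Nat.le_succ s)
  | res A A₁ A₂ s₁ s₂ hAf₁ hAf₂ hT₁ hT₂ hAA ih₁ ih₂ =>
    intro a V Cl hS hA
    have hpos : (0 : ℕ) < 2 ^ (γ * N + B * q) := Nat.pow_pos (by norm_num)
    rcases Nat.lt_or_ge (γ * N + B * q) (dm V + γ * Cl.card) with hlt | hge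
    · rcases hSTP n N k m blk γ B D q σ g F G hE a V Cl A₁ A₂ hAf₁ hAf₂ hS (hA.trans hAA) hlt with
        h | h | ⟨V₁, Cl₁, R₁, R₂, hCl, hpot, hR₁P, hR₁a, hR₂Q, hR₂a, hdisj, hne₁, hne₂, hst₁, hst₂,
          hc₁, hc₂⟩
      · have h1 := ih₁ a V Cl hS h
        calc 2 ^ (dm V + γ * Cl.card) ≤ s₁ * 2 ^ (γ * N + B * q) := h1
          _ ≤ (s₁ + s₂ + 1) * 2 ^ (γ * N + B * q) := Nat.mul_le_mul_right _ (by omega)
      · have h1 := ih₂ a V Cl hS h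
        calc 2 ^ (dm V + γ * Cl.card) ≤ s₂ * 2 ^ (γ * N + B * q) := h1
          _ ≤ (s₁ + s₂ + 1) * 2 ^ (γ * N + B * q) := Nat.mul_le_mul_right _ (by omega)
      · obtain ⟨x₁, hx₁⟩ := hne₁
        obtain ⟨x₂, hx₂⟩ := hne₂
        have h1 := ih₁ x₁ V₁ Cl₁ (hst₁ x₁ hx₁).1 ((hst₁ x₁ hx₁).2.trans hR₁P)
        have h2 := ih₂ x₂ V₁ Cl₁ (hst₂ x₂ hx₂).1 ((hst₂ x₂ hx₂).2.trans hR₂Q)
        have h3 : 2 ^ (dm V + γ * Cl.card) ≤ 2 ^ (dm V₁ + γ * Cl₁.card + 1) :=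
          Nat.pow_le_pow_right (by norm_num) hpot
        rw [pow_succ] at h3
        have h4 : (s₁ + s₂ + 1) * 2 ^ (γ * N + B * q) =
            s₁ * 2 ^ (γ * N + B * q) + s₂ * 2 ^ (γ * N + B * q) + 2 ^ (γ * N + B * q) := by ring
        rw [h4]
        omega
    · calc 2 ^ (dm V + γ * Cl.card) ≤ 2 ^ (γ * N + B * q) :=
            Nat.pow_le_pow_right (by norm_num) hge
        _ = 1 * 2 ^ (γ * N + B * q) := (one_mul _).symm
        _ ≤ (s₁ + s₂ + 1) * 2 ^ (γ * N + B * q) := Nat.mul_le_mul_right _ (by omega)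

end Pool.Agent.H98.PRY
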